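import Pool.Agent.Q264.LK.Def

/-!
# Optimal stopping for components on maximal `k`-degenerate graphs: the steps
-/

set_option autoImplicit false

open Finset MeasureTheory Filter Topology
open scoped Classical

namespace Pool.Agent.Q264.LK

/-- BR. The number of components of `G[B]` is the number of the classes `cl G B v`, `v ∈ B`.
Proof: `u, v ∈ B` are reachable in `G.induce B` iff they are in `res G B` (map walks both ways; a
walk of `res G B` starting in `B` stays in `B`). So the map `B → ConnectedComponent` induces a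
bijection of `B.image (cl G B)` with the components. -/
def S_BR : Prop := ∀ (V : Type) [Fintype V] (G : SimpleGraph V) (B : Finset V),
  CC G (B : Set V) = (B.image (cl G B)).card

/-- EDGE. The number of edges of a `k`-degenerate graph, in the induced subgraph on `B`, is at most
`k |B| - k (k+1) / 2`. Proof: induction on `|B| ≥ k`. If `|B| = k` then `dd ≤ k (k-1)`. Else remove
a vertex `v ∈ B` with at most `k` neighbours in `B`: `dd G B ≤ dd G (B.erase v) + 2 k`. -/
def S_EDGE : Prop := ∀ (V : Type) (G : SimpleGraph V) (k : ℕ), KDeg k G →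
  ∀ B : Finset V, k ≤ B.card → dd G B + k * (k + 1) ≤ 2 * k * B.card

/-- FOR. Vertices minus edges is at most the number of components.
Proof: every connected graph on `c` vertices has at least `c - 1` edges
(`SimpleGraph.Connected.card_vert_le_card_edgeSet_add_one` or the like), summed over the components;
or adding edges one by one. -/
def S_FOR : Prop := ∀ (V : Type) [Fintype V] (G : SimpleGraph V) (B : Finset V),
  2 * B.card ≤ 2 * CC G (B : Set V) + dd G B

/-- LOW. The lower bound. Proof: take the constant algorithm `A σ = t`, `t = n / (2 k) ≥ 1` (the set of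
values is finite, so bounded, `le_csSup`). `act σ t` has `t` elements, and the average over `σ` of
`dd G (act σ t)` is `dd G univ * t (t-1) / (n (n-1))` (each ordered pair of distinct vertices is in
`act σ t` for `t (t-1) (n-2)!` orderings). By EDGE `dd G univ ≤ 2 k n - k (k+1) ≤ 2 k (n-1)`, so by FOR
the value is at least `t - k t (t-1) / n ≥ t (1 - k t / n) ≥ t / 2 ≥ n / (4 k) - 1 / 2`. -/
def S_LOW : Prop := ∀ (k n : ℕ) (G : SimpleGraph (Fin n)), 1 ≤ k → 2 * k ≤ n → KDeg k G →
  (n : ℝ) / (4 * k) - 1 ≤ mm G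

/-- EP. Labels at most `p` give the percolation expectation.
Proof: for fixed `B` the event `lo U p = B` is a box of measure `p ^ |B| (1-p) ^ (|V|-|B|)`
(`Measure.pi_pi`). -/
def S_EP : Prop := ∀ (V : Type) [Fintype V] (p : ℝ), 0 ≤ p → p ≤ 1 → ∀ F : Finset V → ℝ,
  ∫ U, F (lo U p) ∂(uu V) = Ep p F

/-- GRID. From orderings to labels.
Proof: `CC (G.comap e) S = CC G (e '' S)`. For a.e. `U` the labels are pairwise distinct and in
`(0,1)`; let `σ_U` be the ordering of `Fin n` with `U (e (σ_U i))` increasing. The law of `σ_U` is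
uniform on the permutations: the sets `Ω_σ = {U : U (e (σ 0)) < U (e (σ 1)) < …}` are disjoint, cover
almost everything, and have equal measure (permuting coordinates preserves `uu V`), so each has measure
`1 / n!`. So for each stopping `A` (only `1 ≤ A σ ≤ n` is used)
`val (G.comap e) A = ∫ CC G (e '' act σ_U (A σ_U))`. For `t = A σ_U` let `p = U (e (σ_U (t-1)))`, the
largest of the first `t` labels: `e '' act σ_U t = lo U p`. Take `j < M` with `j / M ≤ p ≤ (j+1) / M`:
`lo U (j/M) ⊆ lo U p ⊆ lo U ((j+1)/M)` and adding a vertex raises `CC` by at most `1`, so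
`CC G (lo U p) ≤ CC G (lo U (j/M)) + |lo U ((j+1)/M)| - |lo U (j/M)|`. Take the supremum over `A`
(`csSup_le`, the set is nonempty: `A = 1`). The integrand is a function of `U` with finitely many
values and measurable level sets. -/
def S_GRID : Prop := ∀ (n : ℕ) (V : Type) [Fintype V] (e : Fin n ≃ V) (G : SimpleGraph V) (M : ℕ),
  0 < n → 0 < M → mm (G.comap e) ≤ ∫ U, (⨆ j : Fin M,
    ((CC G (lo U ((j : ℝ) / M) : Set V) : ℝ) +
      (((lo U (((j : ℝ) + 1) / M)).card : ℝ) - ((lo U ((j : ℝ) / M)).card : ℝ)))) ∂(uu V)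

/-- IID. Maxima of sums of independent bounded variables.
Proof: `max_j ∑_l ψ_j(x_l) ≤ L c + ∑_j |∑_l (ψ_j(x_l) - ∫ ψ_j)|` and by Cauchy-Schwarz and
independence `∫ |∑_l (ψ_j(x_l) - ∫ ψ_j)| ≤ (L Var ψ_j)^(1/2) ≤ K √L`. -/
def S_IID : Prop := ∀ (Ω : Type) [MeasurableSpace Ω] (ν : Measure Ω) [IsProbabilityMeasure ν]
  (M L : ℕ) (ψ : Fin M → Ω → ℝ) (K c : ℝ), 0 < M → (∀ j, Measurable (ψ j)) →
  (∀ j ω, |ψ j ω| ≤ K) → (∀ j, ∫ ω, ψ j ω ∂ν ≤ c) →
  ∫ x : Fin L → Ω, (⨆ j : Fin M, ∑ l : Fin L, ψ j (x l)) ∂(Measure.pi fun _ : Fin L => ν) ≤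
    L * c + M * K * √L

/-- CCB. Components of the graph made of a clique and `L` copies of `H`.
Proof: a component of `(BL k L H r)[B]` that contains no vertex of the clique `Fin k` is contained in
one copy `l` and is a component of `H[B_l]`; at most `k` components meet the clique. (Or: removing the
clique vertices one at a time lowers the number of components by at most `1` each.) -/
def S_CCB : Prop := ∀ (k L : ℕ) (W : Type) [Fintype W] (H : SimpleGraph W) (r : W → Prop)
  (B : Finset (Fin k ⊕ (Fin L × W))),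
  CC (BL k L H r) (B : Set (Fin k ⊕ (Fin L × W))) ≤
    k + ∑ l : Fin L, CC H {w : W | Sum.inr (l, w) ∈ B}

/-- BLOCK. `m(G)` for a clique and `L` copies of `H`.
Proof: GRID with `V = Fin k ⊕ (Fin L × W)`. Under `uu V` the blocks `U_l = fun w => U (inr (l, w))`,
`l : Fin L`, are independent with law `uu W` (the map `U ↦ (U_l)_l` sends `uu V` to
`Measure.pi (fun _ : Fin L => uu W)`). By CCB the integrand is at most `2 k + ⨆ j, ∑ l, ψ j (U_l)` with
`ψ j u = CC H (lo u (j/M)) + |lo u ((j+1)/M)| - |lo u (j/M)|`, `0 ≤ ψ j ≤ 2 |W|` (`CC ≤` number of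
vertices), whose expectation is, by EP, `ECC H (j/M) + |W| / M ≤ c + |W| / M`. Apply IID. -/
def S_BLOCK : Prop := ∀ (k L M n : ℕ) (W : Type) [Fintype W] (H : SimpleGraph W) (r : W → Prop)
  (c : ℝ) (e : Fin n ≃ Fin k ⊕ (Fin L × W)), 0 < M → 0 < n →
  (∀ p : ℝ, 0 ≤ p → p ≤ 1 → ECC H p ≤ c) →
  mm ((BL k L H r).comap e) ≤
    2 * k + L * (c + Fintype.card W / M) + M * (2 * Fintype.card W) * √L

/-- MKD. The graph made of a clique and `L` copies of the layered graph, whose bottom layers are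
joined to the clique, is maximal `k`-degenerate.
Proof: `k`-degenerate: in a nonempty `S` take the vertex `(l, (i, x))` with the largest layer `i` (if
there is one): its neighbours in `S` are among the `k` vertices `(l, (i-1, π_j⁻¹ x))` (`i > 0`) or in
the clique (`i = 0`); if `S` is contained in the clique every degree is at most `k - 1`.
Number of edges: `dd G univ = k (k-1) + 2 k |Fin L × W| = 2 k n - k (k+1)` with `n = k + |Fin L × W|`
(each noncentral vertex sends exactly `k` edges down, as `j ↦ π_j x` is injective, which also makes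
`j ↦ π_j⁻¹ x` injective: `π_j⁻¹ x = π_i⁻¹ x = y` gives `π_j y = π_i y`). If `G ≤ H` and `H` is
`k`-degenerate then by EDGE `dd H univ ≤ 2 k n - k (k+1) = dd G univ`, so `H = G`. Transport along
`e`. -/
def S_MKD : Prop := ∀ (k L T n : ℕ) (Γ : Type) [Fintype Γ] (π : Fin k → Equiv.Perm Γ)
  (e : Fin n ≃ Fin k ⊕ (Fin L × (Fin (T + 1) × Γ))),
  (∀ x, Function.Injective fun j => π j x) →
  MaxKDeg k ((BL k L (lay k T π) fun w => w.1 = 0).comap e)

/-- GIRTH. Layered graphs of large girth.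
Proof: let `Γ` be a finite group with elements `g_j` (`j < k`) such that no nontrivial reduced word of
length at most `R` (and at most `2`) in the `g_j` is `1`: e.g. `FreeGroup (Fin k)` modulo a normal
subgroup of finite index containing no short words (`Pool.Agent.H749R3...exists_girth` in
Pool/Agent/H749R3/Family.lean), or permutations of the ball of the free group extending the partial
injections `w ↦ x_j w`. `π_j x = g_j * x` (or `x * g_j`). A cycle of `lay k T π` of length at most `R`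
gives a closed walk without backtracking; each step `(i,x) → (i+1, g_j x)` or back, so the product of
the corresponding reduced word is `1`, a contradiction. -/
def S_GIRTH : Prop := ∀ k R : ℕ, ∃ (Γ : Type) (_ : Fintype Γ) (_ : Nonempty Γ)
  (π : Fin k → Equiv.Perm Γ), (∀ x, Function.Injective fun j => π j x) ∧
    ∀ T : ℕ, (R : ℕ∞) < (lay k T π).egirth

/-- UP1. Components in a graph of girth larger than `R` with degrees at most `2 k`.
Proof: sum over the components `C` of `G[B]` (BR; the classes `cl G B v` partition `B`). If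
`|C| ≤ R`, then `G[C]` is connected without cycles (a cycle in it has length at most `|C| ≤ R`), so
`dd G C = 2 |C| - 2`. If `|C| > R`: `dd G C ≤ 2 k |C|`, `(2 k / R) |C| ^ 2 ≥ 2 k |C|`, and
`2 ≤ 2 |C|`. In both cases `2 ≤ 2 |C| - dd G C + (2 k / R) |C| ^ 2`. Sum up:
`∑_C dd G C = dd G B`, `∑_C |C| ^ 2 = ∑_{v ∈ B} |cl G B v|`. -/
def S_UP1 : Prop := ∀ (V : Type) [Fintype V] (G : SimpleGraph V) (k R : ℕ), 1 ≤ k → 1 ≤ R →
  (R : ℕ∞) < G.egirth → (∀ v, dg G v ≤ 2 * k) → ∀ B : Finset V,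
  2 * (CC G (B : Set V) : ℝ) ≤ 2 * (B.card : ℝ) - (dd G B : ℝ) +
    2 * k / R * ∑ v ∈ B, ((cl G B v).card : ℝ)

/-- SAW. Subcritical percolation.
Proof: for finite `S ⊆ V` and `w ∈ S` let `φ S w` be the expected number of vertices joined to `w` by a
path whose vertices other than `w` are in a random subset of `S \ {w}`. Then
`φ S w ≤ 1 + ∑_{x ∈ S, x ~ w} p φ (S \ {w}) x` (a vertex reached from `w`, not `w`, is reached from a
neighbour `x` of `w` in `S \ {w}`). If every vertex has degree at most `Δ` then in `S \ {w}` a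
neighbour `x` of `w` has at most `Δ - 1` neighbours. So by induction on `|S|`: if `w` has at most
`Δ - 1` neighbours in `S` then `φ S w ≤ m := 1 / (1 - (Δ-1) p)`; and in general
`φ S w ≤ 1 + Δ p m ≤ (1 + p) m ≤ 2 m`. The left side is `∑_v p φ univ v`. -/
def S_SAW : Prop := ∀ (V : Type) [Fintype V] (G : SimpleGraph V) (Δ : ℕ) (p : ℝ), 1 ≤ Δ → 0 ≤ p →
  p ≤ 1 → ((Δ : ℝ) - 1) * p < 1 → (∀ v, dg G v ≤ Δ) →
  Ep p (fun B : Finset V => ∑ v ∈ B, ((cl G B v).card : ℝ)) ≤
    2 * Fintype.card V / (1 - ((Δ : ℝ) - 1) * p)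

/-- MOM. Probabilities of cylinder events. Proof: product formula; `dd` is a sum over ordered pairs. -/
def S_MOM : Prop := ∀ (V : Type) [Fintype V] (p : ℝ),
  (∀ S S' : Finset V, Disjoint S S' →
    Ep p (fun B : Finset V => if S ⊆ B ∧ Disjoint S' B then (1 : ℝ) else 0) =
      p ^ S.card * (1 - p) ^ S'.card) ∧
  Ep p (fun _ : Finset V => (1 : ℝ)) = 1 ∧
  Ep p (fun B : Finset V => (B.card : ℝ)) = p * Fintype.card V ∧
  ∀ G : SimpleGraph V, Ep p (fun B : Finset V => (dd G B : ℝ)) = p ^ 2 * (dd G univ : ℝ)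

/-- UP2. The expected number of components for `p ≤ p' < 1 / (2 k - 1)`.
Proof: `Ep p` is monotone (weights nonnegative); apply UP1, MOM, SAW (`Δ = 2 k`, degrees of the layered
graph are at most `2 k`): `dd H univ = 2 k T |Γ| = 2 k |V| - 2 k |Γ|` (`j ↦ π_j x` injective), `p ^ 2 ≤ 1`,
and `1 - (2k-1) p ≥ 1 - (2k-1) p'`. -/
def S_UP2 : Prop := ∀ (k T R : ℕ) (Γ : Type) [Fintype Γ] (π : Fin k → Equiv.Perm Γ) (p p' : ℝ),
  1 ≤ k → 1 ≤ R → (∀ x, Function.Injective fun j => π j x) → (R : ℕ∞) < (lay k T π).egirth →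
  0 ≤ p → p ≤ p' → p' ≤ 1 → (2 * (k : ℝ) - 1) * p' < 1 →
  ECC (lay k T π) p ≤ (Fintype.card (Fin (T + 1) × Γ) : ℝ) * (p - k * p ^ 2) +
    k * Fintype.card Γ +
    2 * k / R * (Fintype.card (Fin (T + 1) × Γ) : ℝ) / (1 - (2 * (k : ℝ) - 1) * p')

/-- BND. The boundary of a small connected set of inner vertices of the layered graph.
Proof: inner vertices have degree exactly `2 k` (`k` up, `k` down, `j ↦ π_j x` and `j ↦ π_j⁻¹ x`
injective). `S` is connected with `|S| ≤ R0 < girth`, so it is a tree and `dd H S = 2 (|S| - 1)`; the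
number of edges leaving `S` is `2 k |S| - 2 (|S| - 1) = (2 k - 2) |S| + 2`. Each vertex outside `S` has
at most one neighbour in `S`: two neighbours, joined by a path in `S`, would give a cycle of length at
most `|S| + 1 ≤ R0 + 1`. -/
def S_BND : Prop := ∀ (k T R0 : ℕ) (Γ : Type) [Fintype Γ] (π : Fin k → Equiv.Perm Γ)
  (S : Finset (Fin (T + 1) × Γ)), 1 ≤ k → (∀ x, Function.Injective fun j => π j x) →
  ((R0 + 1 : ℕ) : ℕ∞) < (lay k T π).egirth → S.Nonempty → S.card ≤ R0 →
  (∀ u ∈ S, ∀ v ∈ S, (res (lay k T π) S).Reachable u v) →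
  (∀ u ∈ S, 0 < u.1.val ∧ u.1.val < T) →
  (bd (lay k T π) S).card = (2 * k - 2) * S.card + 2

/-- DECR. Comparison of `p ≥ p'` with `p' = R0 / (R0 (2k-1) + 2)`.
Proof: let `𝒮` be the family of the nonempty connected sets `S` of inner vertices (layers `0 < i < T`) with
`|S| ≤ R0`. By BR, `CC H B ≤ |V| / R0 + 2 |Γ| + #{S ∈ 𝒮 : S is a component of H[B]}` (components with
more than `R0` vertices; components meeting the layers `0` and `T`; the others). `S ∈ 𝒮` is a component
of `H[B]` iff `S ⊆ B` and `bd H S` is disjoint from `B`; by MOM and BND this has probability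
`p ^ j (1-p) ^ ((2k-2) j + 2)`, `j = |S|`, a nonincreasing function of `p` on
`[j / (j (2k-1) + 2), 1] ⊇ [p', 1]` as `j ≤ R0`. And `#{S ∈ 𝒮 : S is a component of H[B]} ≤ CC H B`. -/
def S_DECR : Prop := ∀ (k T R0 : ℕ) (Γ : Type) [Fintype Γ] (π : Fin k → Equiv.Perm Γ) (p : ℝ),
  1 ≤ k → 1 ≤ R0 → (∀ x, Function.Injective fun j => π j x) →
  ((R0 + 1 : ℕ) : ℕ∞) < (lay k T π).egirth →
  (R0 : ℝ) / (R0 * (2 * k - 1) + 2) ≤ p → p ≤ 1 →
  ECC (lay k T π) p ≤ (Fintype.card (Fin (T + 1) × Γ) : ℝ) / R0 + 2 * Fintype.card Γ +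
    ECC (lay k T π) ((R0 : ℝ) / (R0 * (2 * k - 1) + 2))

/-- FINH. Good layered graphs.
Proof: let `R0 = 64 k ^ 3`, `p' = R0 / (R0 (2k-1) + 2)`, so `(2k-1) p' < 1`, and
`1/(4k) - (p' - k p'^2) = k (p' - 1/(2k))^2 ≥ 1/(16 k^3)`, since
`p' - 1/(2k) = (R0 - 2) / (2k (R0 (2k-1) + 2)) ≥ 1/(4 k^2)`. Take `R ≥ R0 + 1` so large that
`2 k / (R (1 - (2k-1) p')) ≤ η := min ε (1/(64 k^3)) / 4`, then `Γ`, `π` by GIRTH (with `R`) and `T` so
large that `(k + 2) |Γ| ≤ η |Fin (T+1) × Γ|`. For `p ≤ p'` use UP2 and `p - k p^2 ≤ 1/(4k)`; for `p ≥ p'`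
DECR, UP2 at `p'`. -/
def S_FINH : Prop := ∀ (k : ℕ) (ε : ℝ), 1 ≤ k → 0 < ε →
  ∃ (T : ℕ) (Γ : Type) (_ : Fintype Γ) (_ : Nonempty Γ) (π : Fin k → Equiv.Perm Γ),
    (∀ x, Function.Injective fun j => π j x) ∧ ∀ p : ℝ, 0 ≤ p → p ≤ 1 →
      ECC (lay k T π) p ≤ (1 / (4 * k) + ε) * (Fintype.card (Fin (T + 1) × Γ) : ℝ)

/-- UPP. The upper bound.
Proof: FINH with `ε / 4`, BLOCK with `c = (1/(4k) + ε/4) |W|`, `M ≥ 4 / ε`, `L` large, MKD. -/
def S_UPP : Prop := ∀ (k N : ℕ) (ε : ℝ), 1 ≤ k → 0 < ε →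
  ∃ n, N ≤ n ∧ ∃ G : SimpleGraph (Fin n), MaxKDeg k G ∧ mm G ≤ (1 / (4 * k) + ε) * n

/-- MAIN. Proof: LOW and UPP. -/
def S_MAIN : Prop := ∀ k : ℕ, 1 ≤ k → Tendsto (LL k) atTop (𝓝 (1 / (4 * (k : ℝ))))

end Pool.Agent.Q264.LK
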