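import Pool.Agent.Q264.LK.Stm

set_option autoImplicit false

open Finset MeasureTheory Filter Topology
open scoped Classical

namespace Pool.Agent.Q264.LK

theorem t_EDGE : S_EDGE := by
  intro V G k hG
  suffices h : ∀ m : ℕ, ∀ B : Finset V, B.card = k + m → dd G B + k * (k + 1) ≤ 2 * k * B.card by
    intro B hB
    exact h (B.card - k) B (by omega)
  intro m
  induction m with
  | zero =>
    intro B hB
    have h1 : dd G B ≤ ∑ v ∈ B, (k - 1) := by
      apply Finset.sum_le_sum
      intro v hv
      have : (B.filter fun w => G.Adj v w) ⊆ B.erase v := by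
        intro w hw
        rw [mem_filter] at hw
        rw [mem_erase]
        exact ⟨hw.2.ne', hw.1⟩
      have h2 := card_le_card this
      rw [card_erase_of_mem hv, hB] at h2
      simpa using h2
    rw [sum_const, smul_eq_mul, hB] at h1
    rw [hB]
    rcases Nat.eq_zero_or_pos k with hk | hk
    · subst hk
      simp at h1 ⊢
      exact h1
    · obtain ⟨c, rfl⟩ : ∃ c, k = c + 1 := ⟨k - 1, by omega⟩
      simp only [Nat.add_sub_cancel, add_zero] at h1 ⊢
      nlinarith
  | succ m ih =>
    intro B hB
    have hne : B.Nonempty := by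
      rw [← card_pos]; omega
    obtain ⟨v, hv, hvk⟩ := hG B hne
    have hcard : (B.erase v).card = k + m := by
      rw [card_erase_of_mem hv, hB]; omega
    have h1 := ih (B.erase v) hcard
    have h2 : dd G B ≤ dd G (B.erase v) + 2 * k := by
      have e : dd G B = (B.filter fun w => G.Adj v w).card +
          ∑ u ∈ B.erase v, (B.filter fun w => G.Adj u w).card := by
        exact (add_sum_erase B (fun v => (B.filter fun w => G.Adj v w).card) hv).symm
      have e2 : ∀ u ∈ B.erase v, (B.filter fun w => G.Adj u w).card =
          ((B.erase v).filter fun w => G.Adj u w).card + (if G.Adj v u then 1 else 0) := by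
        intro u hu
        by_cases h : G.Adj v u
        · rw [if_pos h]
          have : (B.filter fun w => G.Adj u w) = insert v ((B.erase v).filter fun w => G.Adj u w) := by
            ext w
            simp only [mem_filter, mem_insert, mem_erase]
            constructor
            · rintro ⟨ha, hb⟩
              by_cases hw : w = v
              · left; exact hw
              · right; exact ⟨⟨hw, ha⟩, hb⟩
            · rintro (rfl | ⟨⟨ha, hb⟩, hc⟩)
              · exact ⟨hv, h.symm⟩
              · exact ⟨hb, hc⟩
          rw [this, card_insert_of_notMem (by simp)]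
        · rw [if_neg h, add_zero]
          congr 1
          ext w
          simp only [mem_filter, mem_erase]
          constructor
          · rintro ⟨ha, hb⟩
            refine ⟨⟨?_, ha⟩, hb⟩
            rintro rfl
            exact h hb.symm
          · rintro ⟨⟨ha, hb⟩, hc⟩
            exact ⟨hb, hc⟩
      rw [e, sum_congr rfl e2, sum_add_distrib]
      have h3 : ∑ u ∈ B.erase v, (if G.Adj v u then 1 else 0) ≤ (B.filter fun w => G.Adj v w).card := by
        rw [sum_boole]
        simp only [Nat.cast_id]
        apply card_le_card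
        intro w hw
        rw [mem_filter] at hw ⊢
        exact ⟨(mem_erase.1 hw.1).2, hw.2⟩
      have h4 : dd G (B.erase v) = ∑ u ∈ B.erase v, ((B.erase v).filter fun w => G.Adj u w).card := rfl
      omega
    rw [hcard] at h1
    rw [hB]
    nlinarith

/-! ### MOM -/

theorem w_prod {V : Type} [Fintype V] (p : ℝ) (B : Finset V) :
    p ^ B.card * (1 - p) ^ (Fintype.card V - B.card) =
      (∏ _v ∈ B, p) * ∏ _v ∈ univ \ B, (1 - p) := by
  rw [prod_const, prod_const, card_univ_sdiff]

theorem Ep_prod {V : Type} [Fintype V] (p : ℝ) (a b : V → ℝ) :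
    Ep p (fun B : Finset V => (∏ v ∈ B, a v) * ∏ v ∈ univ \ B, b v) =
      ∏ v, (p * a v + (1 - p) * b v) := by
  rw [Finset.prod_add]
  unfold Ep
  rw [powerset_univ]
  apply sum_congr rfl
  intro B _
  rw [w_prod, prod_mul_distrib, prod_mul_distrib]
  ring

theorem Ep_cyl {V : Type} [Fintype V] (p : ℝ) (S S' : Finset V) (h : Disjoint S S') :
    Ep p (fun B : Finset V => if S ⊆ B ∧ Disjoint S' B then (1 : ℝ) else 0) =
      p ^ S.card * (1 - p) ^ S'.card := by
  have e : (fun B : Finset V => if S ⊆ B ∧ Disjoint S' B then (1 : ℝ) else 0) =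
      fun B : Finset V => (∏ v ∈ B, if v ∈ S' then (0 : ℝ) else 1) *
        ∏ v ∈ univ \ B, if v ∈ S then (0 : ℝ) else 1 := by
    funext B
    by_cases h1 : S ⊆ B ∧ Disjoint S' B
    · rw [if_pos h1]
      have a1 : ∏ v ∈ B, (if v ∈ S' then (0 : ℝ) else 1) = 1 := by
        apply prod_eq_one
        intro v hv
        rw [if_neg]
        intro hvS
        exact (disjoint_left.1 h1.2 hvS) hv
      have a2 : ∏ v ∈ univ \ B, (if v ∈ S then (0 : ℝ) else 1) = 1 := by
        apply prod_eq_one
        intro v hv
        rw [if_neg]
        intro hvS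
        exact (mem_sdiff.1 hv).2 (h1.1 hvS)
      rw [a1, a2, mul_one]
    · rw [if_neg h1]
      rw [not_and_or] at h1
      rcases h1 with h1 | h1
      · rw [not_subset] at h1
        obtain ⟨v, hv, hvB⟩ := h1
        rw [prod_eq_zero (i := v) (s := univ \ B) (by simp [hvB]) (by simp [hv]), mul_zero]
      · rw [not_disjoint_iff] at h1
        obtain ⟨v, hv, hvB⟩ := h1
        rw [prod_eq_zero (i := v) (s := B) hvB (by simp [hv]), zero_mul]
  rw [e, Ep_prod]
  have e2 : ∀ v ∈ (univ : Finset V), (p * (if v ∈ S' then (0 : ℝ) else 1) +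
      (1 - p) * (if v ∈ S then (0 : ℝ) else 1)) =
      (if v ∈ S then p else 1) * (if v ∈ S' then (1 - p) else 1) := by
    intro v _
    by_cases h1 : v ∈ S
    · have h2 : v ∉ S' := disjoint_left.1 h h1
      simp [h1, h2]
    · by_cases h2 : v ∈ S'
      · simp [h1, h2]
      · simp [h1, h2]
  rw [prod_congr rfl e2, prod_mul_distrib]
  congr 1
  · rw [Finset.prod_ite_mem, univ_inter, prod_const]
  · rw [Finset.prod_ite_mem, univ_inter, prod_const]

theorem Ep_sum {V ι : Type} [Fintype V] (p : ℝ) (s : Finset ι) (F : ι → Finset V → ℝ) :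
    Ep p (fun B => ∑ i ∈ s, F i B) = ∑ i ∈ s, Ep p (F i) := by
  unfold Ep
  rw [sum_comm]
  apply sum_congr rfl
  intro B _
  rw [mul_sum]

theorem t_MOM : S_MOM := by
  intro V _ p
  refine ⟨fun S S' h => Ep_cyl p S S' h, ?_, ?_, ?_⟩
  · have := Ep_cyl (V := V) p ∅ ∅ (disjoint_empty_left _)
    simpa using this
  · have e : (fun B : Finset V => (B.card : ℝ)) =
        fun B : Finset V => ∑ v ∈ (univ : Finset V),
          if ({v} : Finset V) ⊆ B ∧ Disjoint (∅ : Finset V) B then (1 : ℝ) else 0 := by
      funext B
      simp only [singleton_subset_iff, disjoint_empty_left, and_true, sum_boole]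
      congr 2
      ext v; simp
    rw [e, Ep_sum, sum_congr rfl fun v _ => Ep_cyl p {v} ∅ (disjoint_empty_right _)]
    simp [mul_comm]
  · intro G
    have key : ∀ B : Finset V, (dd G B : ℝ) = ∑ v ∈ (univ : Finset V), ∑ w ∈ (univ : Finset V),
        if G.Adj v w then
          (if ({v, w} : Finset V) ⊆ B ∧ Disjoint (∅ : Finset V) B then (1 : ℝ) else 0) else 0 := by
      intro B
      unfold dd
      push_cast
      rw [← sum_filter_add_sum_filter_not univ (fun v => v ∈ B)]
      have h0 : ∑ v ∈ univ.filter (fun v => ¬ v ∈ B), ∑ w ∈ (univ : Finset V),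
        (if G.Adj v w then
          (if ({v, w} : Finset V) ⊆ B ∧ Disjoint (∅ : Finset V) B then (1 : ℝ) else 0) else 0) = 0 := by
        apply sum_eq_zero
        intro v hv
        apply sum_eq_zero
        intro w _
        rw [mem_filter] at hv
        split_ifs with h1 h2
        · exact absurd (h2.1 (by simp)) hv.2
        · rfl
        · rfl
      rw [h0, add_zero]
      have e1 : univ.filter (fun v => v ∈ B) = B := by ext; simp
      rw [e1]
      apply sum_congr rfl
      intro v hv
      rw [card_eq_sum_ones]
      push_cast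
      rw [sum_filter]
      rw [← sum_subset (subset_univ B)]
      · apply sum_congr rfl
        intro w hw
        have : ({v, w} : Finset V) ⊆ B ∧ Disjoint (∅ : Finset V) B := by
          refine ⟨?_, disjoint_empty_left _⟩
          intro x hx
          rw [mem_insert, mem_singleton] at hx
          rcases hx with rfl | rfl
          · exact hv
          · exact hw
        rw [if_pos this]
      · intro w _ hw
        split_ifs with h1 h2
        · exact absurd (h2.1 (by simp)) hw
        · rfl
        · rfl
    have e : (fun B : Finset V => (dd G B : ℝ)) = fun B => ∑ v ∈ (univ : Finset V),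
        ∑ w ∈ (univ : Finset V), if G.Adj v w then
          (if ({v, w} : Finset V) ⊆ B ∧ Disjoint (∅ : Finset V) B then (1 : ℝ) else 0) else 0 :=
      funext key
    rw [e, Ep_sum]
    have e3 : ∀ v ∈ (univ : Finset V), Ep p (fun B : Finset V => ∑ w ∈ (univ : Finset V),
        if G.Adj v w then
          (if ({v, w} : Finset V) ⊆ B ∧ Disjoint (∅ : Finset V) B then (1 : ℝ) else 0) else 0) =
        ∑ w ∈ (univ : Finset V), if G.Adj v w then p ^ 2 else 0 := by
      intro v _
      rw [Ep_sum]
      apply sum_congr rfl
      intro w _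
      by_cases h : G.Adj v w
      · simp only [if_pos h]
        rw [Ep_cyl p _ _ (disjoint_empty_right _), card_pair h.ne]
        simp
      · simp only [if_neg h]
        unfold Ep
        simp
    rw [sum_congr rfl e3]
    unfold dd
    push_cast
    rw [mul_sum]
    apply sum_congr rfl
    intro v _
    rw [← sum_filter, sum_const, nsmul_eq_mul]
    ring

end Pool.Agent.Q264.LK
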