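import Pool.Agent.Q264.LK.Stm

set_option autoImplicit false

open Finset MeasureTheory Filter Topology
open scoped Classical

namespace Pool.Agent.Q264.LK

theorem t_FINH (hG : S_GIRTH) (hU : S_UP2) (hD : S_DECR) : S_FINH := by
  intro k ε hk hε
  have hk' : (1 : ℝ) ≤ k := by exact_mod_cast hk
  have hk0 : (0 : ℝ) < k := by linarith
  set R0 : ℕ := 64 * k ^ 3 with hR0
  have hR0r : (R0 : ℝ) = 64 * (k : ℝ) ^ 3 := by simp [hR0]
  have hR01 : 1 ≤ R0 := by
    have : 1 ≤ k ^ 3 := Nat.one_le_pow _ _ hk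
    omega
  have hR0p : (0 : ℝ) < R0 := by exact_mod_cast hR01
  have hk3 : (1 : ℝ) ≤ (k : ℝ) ^ 3 := one_le_pow₀ hk'
  set D : ℝ := R0 * (2 * k - 1) + 2 with hDdef
  have hDp : 0 < D := by
    have : 0 ≤ (R0 : ℝ) * (2 * k - 1) := mul_nonneg hR0p.le (by linarith)
    linarith
  set p' : ℝ := (R0 : ℝ) / D with hp'
  have hp'0 : 0 < p' := div_pos hR0p hDp
  have hp'1 : p' ≤ 1 := by
    rw [hp', div_le_one hDp, hDdef]
    nlinarith
  have hq : 1 - (2 * (k : ℝ) - 1) * p' = 2 / D := by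
    have hD0 : D ≠ 0 := hDp.ne'
    rw [hp']
    field_simp
    rw [hDdef]
    ring
  have hq0 : 0 < 1 - (2 * (k : ℝ) - 1) * p' := by rw [hq]; positivity
  -- the gap
  have hgap : (p' - k * p' ^ 2) + 1 / (16 * (k : ℝ) ^ 3) ≤ 1 / (4 * k) := by
    have h1 : 1 / (4 * (k : ℝ) ^ 2) ≤ p' - 1 / (2 * k) := by
      have e : p' - 1 / (2 * k) = (R0 - 2) / (2 * k * D) := by
        have hD0 : D ≠ 0 := hDp.ne'
        rw [hp']
        field_simp
        rw [hDdef]
        ring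
      rw [e, div_le_div_iff₀ (by positivity) (by positivity)]
      have : D ≤ 2 * k * (R0 - 2) := by
        rw [hDdef, hR0r]
        have hkk : (k : ℝ) ≤ (k : ℝ) ^ 3 := le_self_pow₀ hk' (by norm_num)
        have e4 : 2 * (k : ℝ) * (64 * (k : ℝ) ^ 3 - 2) - (64 * (k : ℝ) ^ 3 * (2 * k - 1) + 2) =
          64 * (k : ℝ) ^ 3 - 4 * k - 2 := by ring
        linarith
      nlinarith [mul_le_mul_of_nonneg_left this (by positivity : (0 : ℝ) ≤ 2 * k)]
    have h2 : 0 < 1 / (4 * (k : ℝ) ^ 2) := by positivity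
    have h3 : (1 / (4 * (k : ℝ) ^ 2)) ^ 2 ≤ (p' - 1 / (2 * k)) ^ 2 := pow_le_pow_left₀ h2.le h1 2
    have e1 : 1 / (4 * (k : ℝ)) - (p' - k * p' ^ 2) = k * (p' - 1 / (2 * k)) ^ 2 := by
      field_simp
      ring
    have e2 : (k : ℝ) * (1 / (4 * (k : ℝ) ^ 2)) ^ 2 = 1 / (16 * (k : ℝ) ^ 3) := by
      field_simp
      norm_num
    have h4 := mul_le_mul_of_nonneg_left h3 hk0.le
    rw [e2] at h4
    linarith
  set η : ℝ := min ε (1 / (64 * (k : ℝ) ^ 3)) / 4 with hη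
  have hη0 : 0 < η := by
    rw [hη]
    have : 0 < min ε (1 / (64 * (k : ℝ) ^ 3)) := lt_min hε (by positivity)
    positivity
  have hηε : 4 * η ≤ ε := by
    rw [hη]; have := min_le_left ε (1 / (64 * (k : ℝ) ^ 3)); linarith
  have hηk : 4 * η ≤ 1 / (64 * (k : ℝ) ^ 3) := by
    rw [hη]; have := min_le_right ε (1 / (64 * (k : ℝ) ^ 3)); linarith
  set q : ℝ := 1 - (2 * (k : ℝ) - 1) * p' with hqdef
  obtain ⟨R, hRR⟩ := exists_nat_ge (max ((R0 : ℝ) + 1) (2 * k / (η * q)))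
  have hR1 : R0 + 1 ≤ R := by
    have := (le_max_left _ _).trans hRR
    exact_mod_cast this
  have hR2 : 2 * k / (η * q) ≤ R := (le_max_right _ _).trans hRR
  have hRp : (0 : ℝ) < R := by
    have : 0 < R := by omega
    exact_mod_cast this
  have hR3 : 2 * k / R / q ≤ η := by
    rw [div_le_iff₀ (by positivity)] at hR2
    rw [div_div, div_le_iff₀ (by positivity)]
    linarith
  obtain ⟨Γ, hΓ, hne, π, hπ, hg⟩ := hG k R
  obtain ⟨T, hT⟩ := exists_nat_ge (((k : ℝ) + 2) / η)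
  refine ⟨T, Γ, hΓ, hne, π, hπ, ?_⟩
  set N : ℝ := (Fintype.card Γ : ℝ) with hN
  have hN0 : 0 < N := by
    rw [hN]; exact_mod_cast Fintype.card_pos
  set W : ℝ := (Fintype.card (Fin (T + 1) × Γ) : ℝ) with hW
  have hWe : W = (T + 1) * N := by
    rw [hW, hN, Fintype.card_prod, Fintype.card_fin]; push_cast; ring
  have hW0 : 0 < W := by rw [hWe]; positivity
  have hTN : (k + 2) * N ≤ η * W := by
    rw [div_le_iff₀ hη0] at hT
    rw [hWe]
    have : (k : ℝ) + 2 ≤ η * (T + 1) := by nlinarith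
    calc (k + 2) * N ≤ (η * (T + 1)) * N := mul_le_mul_of_nonneg_right this hN0.le
      _ = η * ((T + 1) * N) := by ring
  have hlow : ∀ p : ℝ, 0 ≤ p → p ≤ p' →
      ECC (lay k T π) p ≤ W * (p - k * p ^ 2) + k * N + η * W := by
    intro p hp0 hpp
    have h := hU k T R Γ π p p' hk (by omega) hπ (hg T) hp0 hpp hp'1 (by linarith)
    have e : 2 * (k : ℝ) / R * W / q = (2 * k / R / q) * W := by ring
    have h2 : 2 * (k : ℝ) / R * W / q ≤ η * W := by
      rw [e]; exact mul_le_mul_of_nonneg_right hR3 hW0.le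
    linarith
  have hmax : ∀ p : ℝ, p - k * p ^ 2 ≤ 1 / (4 * k) := by
    intro p
    have e : 1 / (4 * (k : ℝ)) - (p - k * p ^ 2) = k * (p - 1 / (2 * k)) ^ 2 := by
      field_simp
      ring
    have : 0 ≤ (k : ℝ) * (p - 1 / (2 * k)) ^ 2 := by positivity
    linarith
  intro p hp0 hp1
  rcases le_total p p' with h | h
  · have h1 := hlow p hp0 h
    have h2 := mul_le_mul_of_nonneg_left (hmax p) hW0.le
    have h3 : (k : ℝ) * N ≤ η * W := by nlinarith
    have h4 : 4 * η * W ≤ ε * W := mul_le_mul_of_nonneg_right hηε hW0.le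
    have h5 : 0 < η * W := by positivity
    nlinarith
  · have hg' : ((R0 + 1 : ℕ) : ℕ∞) < (lay k T π).egirth :=
      lt_of_le_of_lt (by exact_mod_cast hR1) (hg T)
    have h1 := hD k T R0 Γ π p hk hR01 hπ hg' h hp1
    change ECC (lay k T π) p ≤ W / R0 + 2 * N + ECC (lay k T π) p' at h1
    have h2 := hlow p' hp'0.le le_rfl
    have h3 : W / R0 = W * (1 / (64 * (k : ℝ) ^ 3)) := by rw [hR0r]; ring
    have h4 := mul_le_mul_of_nonneg_left hgap hW0.le
    have h5 := mul_le_mul_of_nonneg_left hηk hW0.le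
    have h6 : (1 : ℝ) / (16 * (k : ℝ) ^ 3) = 4 * (1 / (64 * (k : ℝ) ^ 3)) := by
      field_simp; norm_num
    have h7 : 0 < W * (1 / (64 * (k : ℝ) ^ 3)) := by positivity
    have h8 : 0 < ε * W := by positivity
    rw [h3] at h1
    rw [h6] at h4
    nlinarith

theorem t_UPP (hF : S_FINH) (hB : S_BLOCK) (hM : S_MKD) : S_UPP := by
  intro k N ε hk hε
  have hk' : (1 : ℝ) ≤ k := by exact_mod_cast hk
  obtain ⟨T, Γ, hΓ, hne, π, hπ, hE⟩ := hF k (ε / 4) hk (by positivity)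
  set W := Fin (T + 1) × Γ with hW
  set w : ℝ := (Fintype.card W : ℝ) with hw
  have hw1 : 1 ≤ w := by
    rw [hw]; exact_mod_cast Nat.one_le_iff_ne_zero.2 Fintype.card_ne_zero
  obtain ⟨M, hM4⟩ := exists_nat_ge (4 / ε)
  have hM0 : 0 < M := by
    have : (0 : ℝ) < M := lt_of_lt_of_le (by positivity) hM4
    exact_mod_cast this
  have hM0r : (0 : ℝ) < M := by exact_mod_cast hM0
  obtain ⟨s, hs⟩ := exists_nat_ge (max (max (8 * k / ε) (8 * M / ε)) (max (N : ℝ) 1))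
  have hs1 : 8 * k / ε ≤ s := (le_max_left _ _).trans ((le_max_left _ _).trans hs)
  have hs2 : 8 * M / ε ≤ s := (le_max_right _ _).trans ((le_max_left _ _).trans hs)
  have hs3 : (N : ℝ) ≤ s := (le_max_left _ _).trans ((le_max_right _ _).trans hs)
  have hs4 : (1 : ℝ) ≤ s := (le_max_right _ _).trans ((le_max_right _ _).trans hs)
  set L := s ^ 2 with hL
  set n := Fintype.card (Fin k ⊕ (Fin L × W)) with hn
  have hnr : (n : ℝ) = k + (s : ℝ) ^ 2 * w := by
    rw [hn, hw]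
    simp [hL]
  let e : Fin n ≃ Fin k ⊕ (Fin L × W) := (Fintype.equivFin _).symm
  have hNn : N ≤ n := by
    have : (N : ℝ) ≤ n := by
      rw [hnr]
      nlinarith
    exact_mod_cast this
  have hn0 : 0 < n := by
    have : (0 : ℝ) < n := by rw [hnr]; positivity
    exact_mod_cast this
  refine ⟨n, hNn, (BL k L (lay k T π) fun w => w.1 = 0).comap e, hM k L T n Γ π e hπ, ?_⟩
  have h := hB k L M n W (lay k T π) (fun w => w.1 = 0) ((1 / (4 * k) + ε / 4) * w) e hM0 hn0 hE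
  have hsq : √(L : ℝ) = s := by
    rw [hL]; push_cast; exact Real.sqrt_sq (by positivity)
  rw [hsq] at h
  have hLr : (L : ℝ) = (s : ℝ) ^ 2 := by rw [hL]; push_cast; ring
  rw [hLr] at h
  refine h.trans ?_
  rw [hnr]
  have a1 : w / M ≤ (ε / 4) * w := by
    rw [div_le_iff₀ hM0r]
    rw [div_le_iff₀ hε] at hM4
    nlinarith
  have a2 : 2 * (k : ℝ) ≤ (ε / 4) * (s : ℝ) ^ 2 * w := by
    rw [div_le_iff₀ hε] at hs1
    have : 2 * (k : ℝ) ≤ (ε / 4) * s := by linarith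
    have h5 : (ε / 4) * (s : ℝ) ≤ (ε / 4) * (s : ℝ) ^ 2 * w := by
      have : (s : ℝ) ≤ (s : ℝ) ^ 2 * w := by nlinarith
      nlinarith
    linarith
  have a3 : (M : ℝ) * (2 * w) * s ≤ (ε / 4) * (s : ℝ) ^ 2 * w := by
    rw [div_le_iff₀ hε] at hs2
    have : (M : ℝ) * 2 ≤ (ε / 4) * s := by linarith
    have h5 := mul_le_mul_of_nonneg_right this (by positivity : (0 : ℝ) ≤ s * w)
    nlinarith
  have a4 : (s : ℝ) ^ 2 * ((1 / (4 * (k : ℝ)) + ε / 4) * w + w / M) ≤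
      (s : ℝ) ^ 2 * ((1 / (4 * (k : ℝ)) + ε / 4) * w + ε / 4 * w) := by
    gcongr
  have a5 : 0 ≤ (1 / (4 * (k : ℝ)) + ε) * k := by positivity
  nlinarith

theorem t_MAIN (hLow : S_LOW) (hU : S_UPP) : S_MAIN := by
  intro k hk
  have hk' : (1 : ℝ) ≤ k := by exact_mod_cast hk
  rw [Metric.tendsto_atTop]
  intro ε hε
  obtain ⟨N0, hN0⟩ := exists_nat_gt (1 / ε)
  refine ⟨max (2 * k) (max N0 1), fun N hN => ?_⟩
  have hN1 : 2 * k ≤ N := (le_max_left _ _).trans hN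
  have hN2 : N0 ≤ N := (le_max_left _ _).trans ((le_max_right _ _).trans hN)
  have hN3 : 1 ≤ N := (le_max_right _ _).trans ((le_max_right _ _).trans hN)
  have hNr : (0 : ℝ) < N := by exact_mod_cast hN3
  have hNε : 1 / (N : ℝ) < ε := by
    have : 1 / ε < N := lt_of_lt_of_le hN0 (by exact_mod_cast hN2)
    rw [div_lt_iff₀ hε] at this
    rw [div_lt_iff₀ hNr]
    linarith
  set S : Set ℝ := {x | ∃ n, N ≤ n ∧ ∃ G : SimpleGraph (Fin n), MaxKDeg k G ∧ x = mm G / n}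
    with hS
  have hlb : ∀ x ∈ S, 1 / (4 * (k : ℝ)) - 1 / N ≤ x := by
    rintro x ⟨n, hn, G, hG, rfl⟩
    have hnr : (0 : ℝ) < n := lt_of_lt_of_le hNr (by exact_mod_cast hn)
    have h := hLow k n G hk (hN1.trans hn) hG.1
    have h1 : (1 : ℝ) / n ≤ 1 / N := by
      apply one_div_le_one_div_of_le hNr
      exact_mod_cast hn
    have h2 : 1 / (4 * (k : ℝ)) - 1 / n ≤ mm G / n := by
      rw [le_div_iff₀ hnr]
      have : (1 / (4 * (k : ℝ)) - 1 / n) * n = (n : ℝ) / (4 * k) - 1 := by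
        field_simp
      rw [this]
      exact h
    linarith
  obtain ⟨n, hn, G, hG, hmm⟩ := hU k N (ε / 2) hk (by positivity)
  have hnr : (0 : ℝ) < n := lt_of_lt_of_le hNr (by exact_mod_cast hn)
  have hmem : mm G / n ∈ S := ⟨n, hn, G, hG, rfl⟩
  have h1 : LL k N ≤ 1 / (4 * (k : ℝ)) + ε / 2 := by
    refine (csInf_le ⟨_, hlb⟩ hmem).trans ?_
    rw [div_le_iff₀ hnr]
    exact hmm
  have h2 : 1 / (4 * (k : ℝ)) - 1 / N ≤ LL k N := le_csInf ⟨_, hmem⟩ hlb
  rw [Real.dist_eq, abs_lt]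
  constructor
  · linarith
  · linarith

end Pool.Agent.Q264.LK
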