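import Mathlib

/-!
# Optimal stopping for components on maximal `k`-degenerate graphs: definitions
-/

set_option autoImplicit false

open Finset MeasureTheory Filter Topology
open scoped Classical

namespace Pool.Agent.Q264.LK

/-- `k`-degenerate: every nonempty set of vertices has a vertex with at most `k` neighbours in it -/
def KDeg (k : ℕ) {V : Type} (G : SimpleGraph V) : Prop :=
  ∀ S : Finset V, S.Nonempty → ∃ v ∈ S, (S.filter fun w => G.Adj v w).card ≤ k

/-- maximal `k`-degenerate -/
def MaxKDeg (k : ℕ) {V : Type} (G : SimpleGraph V) : Prop :=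
  KDeg k G ∧ ∀ H : SimpleGraph V, G ≤ H → KDeg k H → H = G

/-- the first `t` vertices of the ordering `σ` -/
def act {n : ℕ} (σ : Equiv.Perm (Fin n)) (t : ℕ) : Set (Fin n) :=
  {v | ∃ i : Fin n, i.val < t ∧ σ i = v}

/-- the number of connected components of `G[A]` -/
noncomputable def CC {V : Type} (G : SimpleGraph V) (A : Set V) : ℕ :=
  Nat.card (G.induce A).ConnectedComponent

/-- stopping algorithms: `A σ = t` depends only on `σ 0, …, σ (t-1)` -/
def IsStop {n : ℕ} (A : Equiv.Perm (Fin n) → ℕ) : Prop :=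
  (∀ σ, 1 ≤ A σ ∧ A σ ≤ n) ∧
    ∀ σ σ' : Equiv.Perm (Fin n), (∀ i : Fin n, i.val < A σ → σ' i = σ i) → A σ' = A σ

/-- the value of a stopping algorithm -/
noncomputable def val {n : ℕ} (G : SimpleGraph (Fin n)) (A : Equiv.Perm (Fin n) → ℕ) : ℝ :=
  (∑ σ : Equiv.Perm (Fin n), (CC G (act σ (A σ)) : ℝ)) / (n.factorial : ℝ)

/-- `m(G)` -/
noncomputable def mm {n : ℕ} (G : SimpleGraph (Fin n)) : ℝ :=
  sSup {x | ∃ A, IsStop A ∧ x = val G A}

/-- `inf {m(G)/|G| : G ∈ F_k, |G| ≥ N}` -/
noncomputable def LL (k N : ℕ) : ℝ :=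
  sInf {x | ∃ n, N ≤ n ∧ ∃ G : SimpleGraph (Fin n), MaxKDeg k G ∧ x = mm G / n}

/-! ### tools -/

/-- the restriction of `G` to `B`, on the same vertex set -/
def res {V : Type} (G : SimpleGraph V) (B : Finset V) : SimpleGraph V where
  Adj a b := G.Adj a b ∧ a ∈ B ∧ b ∈ B
  symm := ⟨fun _ _ h => ⟨h.1.symm, h.2.2, h.2.1⟩⟩
  loopless := ⟨fun _ h => G.irrefl h.1⟩

/-- the component of `v` in `G[B]` (for `v ∈ B`; it is `{v}` if `v ∉ B`) -/
noncomputable def cl {V : Type} [Fintype V] (G : SimpleGraph V) (B : Finset V) (v : V) : Finset V :=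
  univ.filter fun u => (res G B).Reachable v u

/-- the degree -/
noncomputable def dg {V : Type} [Fintype V] (G : SimpleGraph V) (v : V) : ℕ :=
  (univ.filter fun w => G.Adj v w).card

/-- twice the number of edges of `G[B]` -/
noncomputable def dd {V : Type} (G : SimpleGraph V) (B : Finset V) : ℕ :=
  ∑ v ∈ B, (B.filter fun w => G.Adj v w).card

/-- expectation of `F` of a random set containing each vertex independently with probability `p` -/
noncomputable def Ep {V : Type} [Fintype V] (p : ℝ) (F : Finset V → ℝ) : ℝ :=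
  ∑ B : Finset V, p ^ B.card * (1 - p) ^ (Fintype.card V - B.card) * F B

/-- the expected number of components -/
noncomputable def ECC {V : Type} [Fintype V] (G : SimpleGraph V) (p : ℝ) : ℝ :=
  Ep p fun B : Finset V => (CC G (B : Set V) : ℝ)

/-- independent uniform labels -/
noncomputable def uu (V : Type) [Fintype V] : Measure (V → ℝ) :=
  Measure.pi fun _ => (volume : Measure ℝ).restrict (Set.Icc 0 1)

/-- the vertices of label at most `p` -/
noncomputable def lo {V : Type} [Fintype V] (U : V → ℝ) (p : ℝ) : Finset V :=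
  univ.filter fun v => U v ≤ p

/-- a clique on `Fin k` and `L` copies of the graph `H`, whose vertices in `r` are joined to the
clique -/
def BL (k L : ℕ) {W : Type} (H : SimpleGraph W) (r : W → Prop) :
    SimpleGraph (Fin k ⊕ (Fin L × W)) where
  Adj
    | .inl a, .inl b => a ≠ b
    | .inl _, .inr y => r y.2
    | .inr x, .inl _ => r x.2
    | .inr x, .inr y => x.1 = y.1 ∧ H.Adj x.2 y.2
  symm := ⟨by
    rintro (a | x) (b | y) h
    · exact h.symm
    · exact h
    · exact h
    · exact ⟨h.1.symm, h.2.symm⟩⟩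
  loopless := ⟨by
    rintro (a | x) h
    · exact h rfl
    · exact H.irrefl h.2⟩

/-- the layered graph: `(i, x) ~ (i + 1, π_j x)` -/
def lay (k T : ℕ) {Γ : Type} (π : Fin k → Equiv.Perm Γ) : SimpleGraph (Fin (T + 1) × Γ) where
  Adj u v := (v.1.val = u.1.val + 1 ∧ ∃ j, v.2 = π j u.2) ∨
    (u.1.val = v.1.val + 1 ∧ ∃ j, u.2 = π j v.2)
  symm := ⟨fun _ _ h => h.symm⟩
  loopless := ⟨fun _ h => by rcases h with h | h <;> omega⟩

/-- vertices outside `S` with a neighbour in `S` -/
noncomputable def bd {V : Type} [Fintype V] (G : SimpleGraph V) (S : Finset V) : Finset V :=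
  univ.filter fun w => w ∉ S ∧ ∃ s ∈ S, G.Adj s w

end Pool.Agent.Q264.LK
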