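import Pool.Agent.Q264.LK.Asm

set_option autoImplicit false

open Finset MeasureTheory Filter Topology
open scoped Classical

namespace Pool.Agent.Q264.LK

section lay

variable {k T : ℕ} {Γ : Type} [Fintype Γ] (π : Fin k → Equiv.Perm Γ)

/-- up neighbours -/
def Up (u v : Fin (T + 1) × Γ) : Prop := v.1.val = u.1.val + 1 ∧ ∃ j, v.2 = π j u.2

omit [Fintype Γ] in
theorem adj_up (u v : Fin (T + 1) × Γ) : (lay k T π).Adj u v ↔ Up π u v ∨ Up π v u := Iff.rfl

theorem up_card_le (u : Fin (T + 1) × Γ) : (univ.filter fun v => Up π u v).card ≤ k := by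
  by_cases h : u.1.val + 1 < T + 1
  · have : (univ.filter fun v => Up π u v) ⊆
        univ.image (fun j : Fin k => ((⟨u.1.val + 1, h⟩ : Fin (T + 1)), π j u.2)) := by
      intro v hv
      rw [mem_filter] at hv
      obtain ⟨-, h1, j, h2⟩ := hv
      rw [mem_image]
      exact ⟨j, mem_univ _, Prod.ext (Fin.ext h1.symm) h2.symm⟩
    refine (card_le_card this).trans (card_image_le.trans ?_)
    simp
  · have : (univ.filter fun v => Up π u v) = ∅ := by
      rw [filter_eq_empty_iff]
      rintro v - ⟨h1, -⟩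
      have := v.1.isLt
      omega
    rw [this]; simp

theorem down_card_le (u : Fin (T + 1) × Γ) : (univ.filter fun v => Up π v u).card ≤ k := by
  by_cases h : 0 < u.1.val
  · have hlt : u.1.val - 1 < T + 1 := by omega
    have : (univ.filter fun v => Up π v u) ⊆
        univ.image (fun j : Fin k => ((⟨u.1.val - 1, hlt⟩ : Fin (T + 1)), (π j).symm u.2)) := by
      intro v hv
      rw [mem_filter] at hv
      obtain ⟨-, h1, j, h2⟩ := hv
      rw [mem_image]
      refine ⟨j, mem_univ _, Prod.ext (Fin.ext ?_) ?_⟩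
      · show u.1.val - 1 = v.1.val
        omega
      · show (π j).symm u.2 = v.2
        rw [h2, Equiv.symm_apply_apply]
    refine (card_le_card this).trans (card_image_le.trans ?_)
    simp
  · have : (univ.filter fun v => Up π v u) = ∅ := by
      rw [filter_eq_empty_iff]
      rintro v - ⟨h1, -⟩
      omega
    rw [this]; simp

theorem dg_lay_le (u : Fin (T + 1) × Γ) : dg (lay k T π) u ≤ 2 * k := by
  have : (univ.filter fun v => (lay k T π).Adj u v) ⊆
      (univ.filter fun v => Up π u v) ∪ (univ.filter fun v => Up π v u) := by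
    intro v hv
    rw [mem_filter] at hv
    rw [mem_union, mem_filter, mem_filter]
    rcases hv.2 with h | h
    · exact Or.inl ⟨mem_univ _, h⟩
    · exact Or.inr ⟨mem_univ _, h⟩
  unfold dg
  refine (card_le_card this).trans ((card_union_le _ _).trans ?_)
  have := up_card_le π u
  have := down_card_le π u
  omega

theorem up_card (hπ : ∀ x, Function.Injective fun j => π j x) (u : Fin (T + 1) × Γ) :
    (univ.filter fun v => Up π u v).card = if u.1.val < T then k else 0 := by
  split_ifs with h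
  · have h' : u.1.val + 1 < T + 1 := by omega
    have : (univ.filter fun v => Up π u v) =
        univ.image (fun j : Fin k => ((⟨u.1.val + 1, h'⟩ : Fin (T + 1)), π j u.2)) := by
      ext v
      rw [mem_filter, mem_image]
      constructor
      · rintro ⟨-, h1, j, h2⟩
        exact ⟨j, mem_univ _, Prod.ext (Fin.ext h1.symm) h2.symm⟩
      · rintro ⟨j, -, rfl⟩
        exact ⟨mem_univ _, rfl, j, rfl⟩
    rw [this, card_image_of_injective, card_univ, Fintype.card_fin]
    intro i j hij
    exact hπ u.2 (Prod.ext_iff.1 hij).2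
  · rw [card_eq_zero, filter_eq_empty_iff]
    rintro v - ⟨h1, -⟩
    have := v.1.isLt
    omega

theorem card_low : (univ.filter fun u : Fin (T + 1) × Γ => u.1.val < T).card = T * Fintype.card Γ := by
  have : (univ.filter fun u : Fin (T + 1) × Γ => u.1.val < T) =
      (univ.image (Fin.castSucc : Fin T → Fin (T + 1))) ×ˢ (univ : Finset Γ) := by
    ext u
    simp only [mem_filter, mem_univ, true_and, mem_product, mem_image, and_true]
    constructor
    · intro h
      exact ⟨⟨u.1.val, h⟩, Fin.ext rfl⟩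
    · rintro ⟨i, hi⟩
      rw [← hi]
      exact i.isLt
  rw [this, card_product, card_image_of_injective _ (Fin.castSucc_injective T)]
  simp

theorem dd_lay (hπ : ∀ x, Function.Injective fun j => π j x) :
    dd (lay k T π) univ = 2 * (k * (T * Fintype.card Γ)) := by
  have h1 : ∀ u : Fin (T + 1) × Γ, (univ.filter fun v => (lay k T π).Adj u v).card =
      (univ.filter fun v => Up π u v).card + (univ.filter fun v => Up π v u).card := by
    intro u
    rw [← card_union_of_disjoint, ← filter_or]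
    · apply congrArg
      ext v
      rw [mem_filter, mem_filter, adj_up]
    · rw [disjoint_left]
      intro v hv hv'
      rw [mem_filter] at hv hv'
      have a1 := hv.2.1
      have a2 := hv'.2.1
      omega
  have h2 : ∑ u : Fin (T + 1) × Γ, (univ.filter fun v => Up π v u).card =
      ∑ u : Fin (T + 1) × Γ, (univ.filter fun v => Up π u v).card := by
    simp only [card_filter]
    rw [sum_comm]
  unfold dd
  rw [sum_congr rfl fun u _ => h1 u, sum_add_distrib, h2, ← two_mul]
  congr 1
  rw [sum_congr rfl fun u _ => up_card π hπ u, ← sum_filter, sum_const, card_low, smul_eq_mul]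
  ring

end lay

theorem Ep_mono' {V : Type} [Fintype V] {p : ℝ} (h0 : 0 ≤ p) (h1 : p ≤ 1) {F G : Finset V → ℝ}
    (h : ∀ B, F B ≤ G B) : Ep p F ≤ Ep p G := by
  unfold Ep
  apply sum_le_sum
  intro B _
  have : 0 ≤ p ^ B.card * (1 - p) ^ (Fintype.card V - B.card) :=
    mul_nonneg (pow_nonneg h0 _) (pow_nonneg (by linarith) _)
  exact mul_le_mul_of_nonneg_left (h B) this

theorem Ep_lin {V : Type} [Fintype V] (p a b c : ℝ) (F G H : Finset V → ℝ) :
    Ep p (fun B => a * F B + b * G B + c * H B) = a * Ep p F + b * Ep p G + c * Ep p H := by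
  unfold Ep
  rw [mul_sum, mul_sum, mul_sum, ← sum_add_distrib, ← sum_add_distrib]
  apply sum_congr rfl
  intro B _
  ring

theorem t_UP2 (hUP1 : S_UP1) (hSAW : S_SAW) (hMOM : S_MOM) : S_UP2 := by
  intro k T R Γ _ π p p' hk hR hπ hg hp0 hpp hp'1 hq
  set V := Fin (T + 1) × Γ
  set H := lay k T π with hH
  have hk' : (1 : ℝ) ≤ k := by exact_mod_cast hk
  have hRp : (0 : ℝ) < R := by exact_mod_cast hR
  have hp1 : p ≤ 1 := hpp.trans hp'1
  have hVN : (Fintype.card V : ℝ) = (T + 1) * Fintype.card Γ := by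
    rw [Fintype.card_prod, Fintype.card_fin]; push_cast; ring
  have hdeg : ∀ v, dg H v ≤ 2 * k := dg_lay_le π
  have hdd : (dd H univ : ℝ) = 2 * (k * (T * Fintype.card Γ)) := by
    rw [hH, dd_lay π hπ]; push_cast; ring
  have hpt : ∀ B : Finset V, (CC H (B : Set V) : ℝ) ≤
      1 * (B.card : ℝ) + (-1 / 2) * (dd H B : ℝ) + (k / R) * ∑ v ∈ B, ((cl H B v).card : ℝ) := by
    intro B
    have h := hUP1 V H k R hk hR hg hdeg B
    have e : 2 * (k : ℝ) / R * ∑ v ∈ B, ((cl H B v).card : ℝ) =
        2 * ((k / R) * ∑ v ∈ B, ((cl H B v).card : ℝ)) := by ring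
    linarith
  have h1 := Ep_mono' hp0 hp1 hpt
  rw [Ep_lin, (hMOM V p).2.2.1, (hMOM V p).2.2.2 H, hdd] at h1
  have hΔ : ((2 * k : ℕ) : ℝ) - 1 = 2 * k - 1 := by push_cast; ring
  have hqp : (2 * (k : ℝ) - 1) * p ≤ (2 * (k : ℝ) - 1) * p' :=
    mul_le_mul_of_nonneg_left hpp (by linarith)
  have h2 := hSAW V H (2 * k) p (by omega) hp0 hp1 (by rw [hΔ]; linarith) hdeg
  rw [hΔ] at h2
  have hV0 : (0 : ℝ) ≤ Fintype.card V := by positivity
  have h3 : 2 * (Fintype.card V : ℝ) / (1 - (2 * (k : ℝ) - 1) * p) ≤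
      2 * (Fintype.card V : ℝ) / (1 - (2 * (k : ℝ) - 1) * p') := by
    apply div_le_div_of_nonneg_left (by positivity) (by linarith) (by linarith)
  have h4 : (k / R : ℝ) * Ep p (fun B : Finset V => ∑ v ∈ B, ((cl H B v).card : ℝ)) ≤
      (k / R : ℝ) * (2 * (Fintype.card V : ℝ) / (1 - (2 * (k : ℝ) - 1) * p')) :=
    mul_le_mul_of_nonneg_left (h2.trans h3) (by positivity)
  have h5 : (k / R : ℝ) * (2 * (Fintype.card V : ℝ) / (1 - (2 * (k : ℝ) - 1) * p')) =
      2 * k / R * (Fintype.card V : ℝ) / (1 - (2 * (k : ℝ) - 1) * p') := by ring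
  have hpsq : p ^ 2 ≤ 1 := by nlinarith
  have hG0 : (0 : ℝ) ≤ Fintype.card Γ := by positivity
  have h6 : p ^ 2 * (k * (Fintype.card Γ : ℝ)) ≤ 1 * (k * (Fintype.card Γ : ℝ)) :=
    mul_le_mul_of_nonneg_right hpsq (by positivity)
  have h7 : (Fintype.card V : ℝ) * (p - k * p ^ 2) =
      p * Fintype.card V - p ^ 2 * (k * (T * Fintype.card Γ)) - p ^ 2 * (k * Fintype.card Γ) := by
    rw [hVN]; ring
  unfold ECC
  linarith

end Pool.Agent.Q264.LK
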